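import Pool.Agent.K3h46.BQ.Refl

/-!
# Precompact Baire groups are quotients of reflexive precompact Baire groups

Positive answer to Q1: every precompact Hausdorff abelian group `H` with the Baire property is a quotient
of a reflexive precompact Hausdorff abelian group `G` with the Baire property. (All compact subsets of
`G` are finite.) The definitions `Precompact` and `Reflexive` are those of the file
`Pool.Agent.R821.BohrBoolean`, which were used for the negative answer to Q2.

Sketch. There is a set `S` (of well-founded trees) with a map `S → H` and with a matrix
`M : S × S → ℝ/ℤ` such that all countable patterns are realised in the columns and, over each element of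
`H`, in the rows. `G` is the free abelian group on `S` with the coarsest topology such that the
homomorphism `G → H` and the characters given by the columns are continuous. It is mapped onto
`H × (ℝ/ℤ) ^ A` by an open homomorphism, for every countable set `A` of columns; as `G` satisfies the
countable chain condition, it inherits the Baire property from `H`. All compact subsets of `G` are
countable and then finite, by a category argument. Finally, for EVERY precompact abelian group `G` with
the Baire property all compact subsets of the dual are finite (`finite_of_compact_chars`): each infinite
compact Hausdorff space contains a point and countably many infinite sets such that every neighbourhood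
of the point contains one of them, and if the space consists of characters of `G`, the Baire property
gives infinitely many characters with equicontinuous differences. So `G` is reflexive.
-/

set_option autoImplicit false

open Filter Topology Pointwise

namespace Pool.Agent.Results.MP_329fc6_gt.BaireQuotientOfReflexive

open Pool.Agent.R821 Pool.Agent.K3h46.BQ

universe u

/-- **Positive answer to Q1.** Every precompact Hausdorff abelian Baire group is a quotient `G ⧸ N` of a
reflexive precompact Hausdorff abelian Baire group `G` by a closed subgroup; moreover all compact subsets
of `G` are finite. -/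
theorem result (H : Type u) [CommGroup H] [TopologicalSpace H] [IsTopologicalGroup H] [T2Space H]
    [BaireSpace H] (hH : Precompact H) :
    ∃ (G : Type u) (_ : CommGroup G) (_ : TopologicalSpace G) (_ : IsTopologicalGroup G)
      (_ : T2Space G) (_ : BaireSpace G), Precompact G ∧ Reflexive G ∧
      (∀ K : Set G, IsCompact K → K.Finite) ∧
      ∃ N : Subgroup G, IsClosed (N : Set G) ∧ Nonempty ((G ⧸ N) ≃ₜ* H) := by
  have hT2 : T2Space (Additive H) := ‹T2Space H›
  have hB : BaireSpace (Additive H) := ‹BaireSpace H›
  have hP : PreC (Additive H) := by
    intro U hU
    obtain ⟨F, hF, hFU⟩ := hH (Additive.ofMul ⁻¹' U) hU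
    refine ⟨Additive.toMul ⁻¹' F, hF.preimage Additive.toMul.injective.injOn, ?_⟩
    refine Set.eq_univ_of_forall fun x => ?_
    have hx : Additive.toMul x ∈ F * (Additive.ofMul ⁻¹' U : Set H) := by rw [hFU]; trivial
    obtain ⟨f, hf, y, hy, hfy⟩ := hx
    refine ⟨Additive.ofMul y, hy, Additive.ofMul f, hf, ?_⟩
    change Additive.ofMul y + Additive.ofMul f = x
    rw [← ofMul_mul, mul_comm, show f * y = Additive.toMul x from hfy]
    rfl
  let F : Type u := Tr (Additive H) →₀ ℤ
  let _ : TopologicalSpace F := topF (Additive H)
  have hFg : IsTopologicalAddGroup F := topGroup
  have hF2 : T2Space F := t2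
  have hFB : BaireSpace F := baireSpace hP
  have hFP : PreC F := preC hP
  have hG2 : T2Space (Multiplicative F) := hF2
  have hGB : BaireSpace (Multiplicative F) := hFB
  refine ⟨Multiplicative F, inferInstance, inferInstance, inferInstance, hG2, hGB, ?_,
    reflexive hP, fun K hK => finite_compact (V := Additive H) (C := K) hK, ?_⟩
  · intro U hU
    obtain ⟨E, hE, hEU⟩ := hFP (Multiplicative.ofAdd ⁻¹' U) hU
    refine ⟨Multiplicative.toAdd ⁻¹' E, hE.preimage Multiplicative.toAdd.injective.injOn, ?_⟩
    refine Set.eq_univ_of_forall fun x => ?_
    have hx : Multiplicative.toAdd x ∈ (Multiplicative.ofAdd ⁻¹' U : Set F) + E := by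
      rw [hEU]; trivial
    obtain ⟨u, hu, e, he, hue⟩ := hx
    refine ⟨Multiplicative.ofAdd e, he, Multiplicative.ofAdd u, hu, ?_⟩
    change Multiplicative.ofAdd e * Multiplicative.ofAdd u = x
    rw [← ofAdd_add, add_comm, show u + e = Multiplicative.toAdd x from hue]
    rfl
  · let π : Multiplicative F →* H :=
      { toFun := fun g => Additive.toMul ((pr : F →+ Additive H) (Multiplicative.toAdd g))
        map_one' := by
          change Additive.toMul ((pr : F →+ Additive H) 0) = 1
          rw [map_zero]
          rfl
        map_mul' := fun g h => by
          rw [toAdd_mul, map_add, toMul_add] }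
    have hπc : Continuous π := continuous_pr (V := Additive H)
    have hπo : IsOpenMap π := isOpenMap_pr (V := Additive H)
    have hπs : Function.Surjective π := by
      intro h
      obtain ⟨g, hg, -⟩ := exists_row_elt (Additive.ofMul h) Set.countable_empty
        (fun _ => (0 : Pool.Agent.R821.T))
      exact ⟨Multiplicative.ofAdd g, congrArg Additive.toMul hg⟩
    refine ⟨π.ker, ?_, ?_⟩
    · have h1 : (π.ker : Set (Multiplicative F)) = π ⁻¹' {1} := by
        ext g
        exact MonoidHom.mem_ker
      rw [h1]
      exact isClosed_singleton.preimage hπc
    · let E : (Multiplicative F ⧸ π.ker) ≃* H := QuotientGroup.quotientKerEquivOfSurjective π hπs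
      have hE : ∀ g : Multiplicative F, E (g : Multiplicative F ⧸ π.ker) = π g := fun g => rfl
      have hEc : Continuous E := hπc.quotient_lift _
      have hEo : IsOpenMap E := by
        intro U hU
        have h1 : E '' U = π '' ((QuotientGroup.mk : Multiplicative F → _) ⁻¹' U) := by
          ext h
          constructor
          · rintro ⟨q, hq, rfl⟩
            obtain ⟨g, rfl⟩ := QuotientGroup.mk_surjective q
            exact ⟨g, hq, rfl⟩
          · rintro ⟨g, hg, rfl⟩
            exact ⟨g, hg, rfl⟩
        rw [h1]
        exact hπo _ (hU.preimage QuotientGroup.continuous_mk)
      exact ⟨{ toMulEquiv := E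
               continuous_toFun := hEc
               continuous_invFun := by
                 rw [continuous_def]
                 intro U hU
                 have h1 : E.invFun ⁻¹' U = E '' U := (E.toEquiv.image_eq_preimage_symm U).symm
                 rw [h1]
                 exact hEo U hU }⟩

end Pool.Agent.Results.MP_329fc6_gt.BaireQuotientOfReflexive
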